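import Mathlib
import Pool.Agent.RV15W.Defs

/-!
The logarithmic Mahler measure of `1 + x1 + x2 + x3 + x4` as an integral over the box `[0,1]^4`
in `Fin 4 → ℝ` equals the iterated
integral `RV15W.m5`.
-/

open MeasureTheory Set

namespace RVL

open RV15W

/-- separate one coordinate of the unit box -/
theorem box_succAbove {n : ℕ} (i : Fin (n + 1)) (f : (Fin (n + 1) → ℝ) → ℝ) :
    ∫ θ in Icc (0 : Fin (n + 1) → ℝ) 1, f θ
      = ∫ z, f (i.insertNth z.1 z.2) ∂((volume.restrict (Icc (0 : ℝ) 1)).prod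
        (volume.restrict (Icc (0 : Fin n → ℝ) 1))) := by
  set e : ℝ × (Fin n → ℝ) ≃ᵐ (Fin (n + 1) → ℝ) :=
    (MeasurableEquiv.piFinSuccAbove (fun _ => ℝ) i).symm
  have hem : MeasurePreserving e :=
    (volume_preserving_piFinSuccAbove (fun _ : Fin (n + 1) => ℝ) i).symm _
  have heπ : (e ⁻¹' Icc 0 1) = Icc (0 : ℝ) 1 ×ˢ Icc (0 : Fin n → ℝ) 1 :=
    ((Fin.insertNthOrderIso (fun _ => ℝ) i).preimage_Icc _ _).trans (Icc_prod_eq _ _)
  rw [Measure.prod_restrict, ← heπ, ← Measure.volume_eq_prod,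
    ← hem.setIntegral_preimage_emb e.measurableEmbedding]
  rfl

lemma e_norm (a : ℝ) : ‖e a‖ = 1 := by
  rw [e]
  have : (2 * (Real.pi : ℂ) * a * Complex.I) = ((2 * Real.pi * a : ℝ) : ℂ) * Complex.I := by
    push_cast; ring
  rw [this, Complex.norm_exp_ofReal_mul_I]

lemma e_cont : Continuous e := by
  unfold e
  fun_prop

lemma log_circle (Y : ℂ) (d : ℝ) : Real.log ‖Y + e d‖
    = (fun θ : ℝ => Real.log ‖circleMap 0 1 θ + Y‖) (2 * Real.pi * d) := by
  simp only [e, circleMap]
  congr 2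
  push_cast
  ring

lemma log_int (Y : ℂ) : IntervalIntegrable (fun d => Real.log ‖Y + e d‖) volume 0 1 := by
  have h := circleIntegrable_log_norm_sub_const (a := -Y) (c := 0) 1
  have h1 : IntervalIntegrable (fun θ : ℝ => Real.log ‖circleMap 0 1 θ + Y‖) volume 0
      (2 * Real.pi) := by
    have := h
    unfold CircleIntegrable at this
    simpa [sub_neg_eq_add] using this
  have h2 := h1.comp_mul_left (c := 2 * Real.pi)
  have e1 : (0 : ℝ) / (2 * Real.pi) = 0 := by simp
  have e2 : (2 * Real.pi) / (2 * Real.pi) = 1 := div_self (by positivity)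
  rw [e1, e2] at h2
  refine h2.congr fun d _ => ?_
  exact (log_circle Y d).symm

lemma log_val (Y : ℂ) : ∫ d in (0:ℝ)..1, Real.log ‖Y + e d‖ = Real.posLog ‖Y‖ := by
  have h1 := circleAverage_log_norm_add_const_eq_posLog (a := Y)
  rw [Real.circleAverage_def] at h1
  have h3 := intervalIntegral.integral_comp_mul_left (a := 0) (b := 1)
    (fun θ : ℝ => Real.log ‖circleMap 0 1 θ + Y‖) (by positivity : (2 * Real.pi) ≠ 0)
  rw [intervalIntegral.integral_congr (fun d _ => log_circle Y d)]
  rw [h3, ← h1]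
  simp

lemma log_int' (Y : ℂ) : Integrable (fun d => Real.log ‖Y + e d‖)
    (volume.restrict (Icc (0 : ℝ) 1)) := by
  have h := (intervalIntegrable_iff_integrableOn_Icc_of_le zero_le_one).mp (log_int Y)
  exact h

lemma log_val' (Y : ℂ) : ∫ d in Icc (0 : ℝ) 1, Real.log ‖Y + e d‖ = Real.posLog ‖Y‖ := by
  rw [integral_Icc_eq_integral_Ioc, ← intervalIntegral.integral_of_le zero_le_one, log_val]

lemma log_abs_le {t R : ℝ} (ht : 0 ≤ t) (hR : t ≤ R) :
    ‖Real.log t‖ ≤ 2 * Real.posLog R - Real.log t := by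
  have h1 : Real.posLog t ≤ Real.posLog R := Real.posLog_le_posLog ht hR
  have h2 : Real.log t ≤ Real.posLog t := by rw [Real.posLog_apply]; exact le_max_right _ _
  have h3 : (0 : ℝ) ≤ Real.posLog t := Real.posLog_nonneg
  rw [Real.norm_eq_abs, abs_le]
  constructor <;> linarith

/-- Jensen's formula and integrability over a parameter space -/
theorem jensen_param {X : Type*} [MeasurableSpace X] (μ : Measure X) [IsFiniteMeasure μ]
    (Y : X → ℂ) (hY : Measurable Y) {R : ℝ} (hR : ∀ x, ‖Y x‖ ≤ R) :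
    ∫ z : ℝ × X, Real.log ‖Y z.2 + e z.1‖ ∂((volume.restrict (Icc (0 : ℝ) 1)).prod μ)
      = ∫ x, Real.posLog ‖Y x‖ ∂μ := by
  have hm : Measurable fun z : ℝ × X => Real.log ‖Y z.2 + e z.1‖ :=
    Real.measurable_log.comp (((hY.comp measurable_snd).add
      (e_cont.measurable.comp measurable_fst)).norm)
  have hbd : ∀ (x : X) (d : ℝ), ‖Y x + e d‖ ≤ R + 1 := fun x d =>
    (norm_add_le _ _).trans (by rw [e_norm]; linarith [hR x])
  have hint : Integrable (fun z : ℝ × X => Real.log ‖Y z.2 + e z.1‖)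
      ((volume.restrict (Icc (0 : ℝ) 1)).prod μ) := by
    rw [integrable_prod_iff' hm.aestronglyMeasurable]
    refine ⟨Filter.Eventually.of_forall fun x => log_int' (Y x), ?_⟩
    refine Integrable.of_bound ?_ (2 * Real.posLog (R + 1)) ?_
    · exact (hm.norm.stronglyMeasurable.integral_prod_left'
        (μ := volume.restrict (Icc (0 : ℝ) 1))).aestronglyMeasurable
    · refine Filter.Eventually.of_forall fun x => ?_
      rw [Real.norm_of_nonneg (integral_nonneg fun d => norm_nonneg _)]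
      calc ∫ d in Icc (0 : ℝ) 1, ‖Real.log ‖Y x + e d‖‖
          ≤ ∫ d in Icc (0 : ℝ) 1, (2 * Real.posLog (R + 1) - Real.log ‖Y x + e d‖) := by
            refine integral_mono (log_int' (Y x)).norm
              ((integrable_const _).sub (log_int' (Y x))) fun d => ?_
            exact log_abs_le (norm_nonneg _) (hbd x d)
        _ = 2 * Real.posLog (R + 1) - Real.posLog ‖Y x‖ := by
            rw [integral_sub (integrable_const _) (log_int' (Y x)), log_val']
            simp
        _ ≤ 2 * Real.posLog (R + 1) := by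
            have : (0 : ℝ) ≤ Real.posLog ‖Y x‖ := Real.posLog_nonneg
            linarith
  rw [integral_prod_symm _ hint]
  refine integral_congr_ae (Filter.Eventually.of_forall fun x => ?_)
  exact log_val' (Y x)

/-- iterate a continuous function over the unit box -/
theorem box_cons {n : ℕ} (g : (Fin (n + 1) → ℝ) → ℝ) (hg : Continuous g) :
    ∫ θ in Icc (0 : Fin (n + 1) → ℝ) 1, g θ
      = ∫ a in (0 : ℝ)..1, ∫ v in Icc (0 : Fin n → ℝ) 1, g (Fin.cons a v) := by
  rw [box_succAbove 0]
  have hc : Continuous fun z : ℝ × (Fin n → ℝ) => g ((0 : Fin (n + 1)).insertNth z.1 z.2) :=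
    hg.comp (Continuous.finInsertNth 0 continuous_fst continuous_snd)
  rw [integral_prod]
  · rw [integral_Icc_eq_integral_Ioc, ← intervalIntegral.integral_of_le zero_le_one]
    refine intervalIntegral.integral_congr fun a _ => ?_
    simp only [Fin.insertNth_zero']
  · rw [Measure.prod_restrict]
    exact hc.continuousOn.integrableOn_compact (isCompact_Icc.prod isCompact_Icc)

theorem box_zero (g : (Fin 0 → ℝ) → ℝ) :
    ∫ θ in Icc (0 : Fin 0 → ℝ) 1, g θ = g ![] := by
  have h1 : Icc (0 : Fin 0 → ℝ) 1 = univ := by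
    ext x
    simp only [mem_univ, iff_true]
    exact ⟨fun i => i.elim0, fun i => i.elim0⟩
  rw [h1, Measure.restrict_univ]
  have h2 : (volume : Measure (Fin 0 → ℝ)) = Measure.dirac ![] := by
    rw [volume_pi, Measure.pi_of_empty _ ![]]
  rw [h2, integral_dirac]

/-- The box form of `m5`. -/
theorem box_m5 :
    ∫ θ in Icc (0 : Fin 4 → ℝ) 1,
      Real.log ‖1 + ∑ i : Fin 4, Complex.exp (2 * (Real.pi : ℂ) * Complex.I * (θ i : ℂ))‖
      = m5 := by
  have he : ∀ a : ℝ, Complex.exp (2 * (Real.pi : ℂ) * Complex.I * (a : ℂ)) = e a := by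
    intro a
    rw [e]
    congr 1
    ring
  simp only [he]
  rw [box_succAbove 3]
  have e1 : ∀ z : ℝ × (Fin 3 → ℝ),
      Real.log ‖1 + ∑ i : Fin 4, e ((3 : Fin 4).insertNth (α := fun _ => ℝ) z.1 z.2 i)‖
      = Real.log ‖(1 + e (z.2 0) + e (z.2 1) + e (z.2 2)) + e z.1‖ := by
    intro z
    rw [Fin.sum_univ_succAbove _ 3, Fin.sum_univ_three]
    simp only [Fin.insertNth_apply_same, Fin.insertNth_apply_succAbove]
    congr 2
    ring
  simp only [e1]
  have hYm : Continuous fun v : Fin 3 → ℝ => 1 + e (v 0) + e (v 1) + e (v 2) := by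
    have := e_cont
    fun_prop
  have hfin : IsFiniteMeasure (volume.restrict (Icc (0 : Fin 3 → ℝ) 1)) :=
    ⟨by rw [Measure.restrict_apply_univ]; exact isCompact_Icc.measure_lt_top⟩
  rw [jensen_param (volume.restrict (Icc (0 : Fin 3 → ℝ) 1))
    (fun v => 1 + e (v 0) + e (v 1) + e (v 2)) hYm.measurable (R := 4) ?_]
  · have hc : Continuous fun v : Fin 3 → ℝ => Real.posLog ‖1 + e (v 0) + e (v 1) + e (v 2)‖ :=
      Real.continuous_posLog.comp (continuous_norm.comp hYm)
    rw [box_cons _ hc, m5]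
    refine intervalIntegral.integral_congr fun a _ => ?_
    have hca : Continuous fun v : Fin 2 → ℝ =>
        Real.posLog ‖1 + e ((Fin.cons a v : Fin 3 → ℝ) 0) + e ((Fin.cons a v : Fin 3 → ℝ) 1)
          + e ((Fin.cons a v : Fin 3 → ℝ) 2)‖ := by
      refine hc.comp ?_
      exact Continuous.finCons continuous_const continuous_id
    rw [box_cons _ hca]
    refine intervalIntegral.integral_congr fun b _ => ?_
    have hcb : Continuous fun v : Fin 1 → ℝ =>
        Real.posLog ‖1 + e ((Fin.cons a (Fin.cons b v : Fin 2 → ℝ) : Fin 3 → ℝ) 0)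
          + e ((Fin.cons a (Fin.cons b v : Fin 2 → ℝ) : Fin 3 → ℝ) 1)
          + e ((Fin.cons a (Fin.cons b v : Fin 2 → ℝ) : Fin 3 → ℝ) 2)‖ := by
      refine hca.comp ?_
      exact Continuous.finCons continuous_const continuous_id
    rw [box_cons _ hcb]
    refine intervalIntegral.integral_congr fun c _ => ?_
    rw [box_zero, log_val (1 + e a + e b + e c)]
    rfl
  · intro v
    refine (norm_add_le _ _).trans ?_
    refine (add_le_add_left (norm_add_le _ _) _).trans ?_
    refine (add_le_add_left (add_le_add_left (norm_add_le _ _) _) _).trans ?_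
    rw [e_norm, e_norm, e_norm]
    norm_num

theorem box_m5' :
    ∫ t in Set.univ.pi (fun _ : Fin 4 => Set.Icc (0 : ℝ) 1),
      Real.log ‖(1 : ℂ) + ∑ j : Fin 4,
        Complex.exp (2 * (Real.pi : ℂ) * Complex.I * ((t j : ℝ) : ℂ))‖ = m5 := by
  rw [← box_m5]
  congr 2
  ext x
  simp [Set.mem_Icc, Pi.le_def]

end RVL
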