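import Mathlib
import Pool.Agent.K3R.JacobiCube
import Pool.Agent.K3R.LFunLattice

/-!
The Mellin transform at `4` of `(η(3z)η(5z))³ + (η(z)η(15z))³` (real variable)
in terms of the two lattice sums
`Lam3` over `ℤ[(1+√-15)/2]` and `Lam1` over `ℤ + ℤ(-3+√-15)/6`, from the two theta series
identities `A3`, `A1`.
-/

open Complex Real Set Filter Topology MeasureTheory

namespace RVL

open LatL

lemma y3_pos : (0 : ℝ) < √15 / 2 := by positivity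

lemma y1_pos : (0 : ℝ) < √15 / 6 := by positivity

/-- `∑ λ ^ 2 / |λ| ^ 8` over the lattice `ℤ + ℤ (x + i y)` -/
noncomputable def lam (x y : ℝ) : ℂ :=
  ∑' p : ℤ × ℤ, lat x y p ^ 2 / ((Q x y p : ℝ) : ℂ) ^ 4

/-- the sum over the ring of integers of `ℚ(√-15)` -/
noncomputable def Lam3 : ℂ := lam (1 / 2) (√15 / 2)

/-- the sum over `ℤ + ℤ τ₀`, `τ₀ = (-3 + √-15) / 6` -/
noncomputable def Lam1 : ℂ := lam (-1 / 2) (√15 / 6)

lemma cpow_four (z : ℂ) : z ^ (4 : ℂ) = z ^ 4 := by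
  have : (4 : ℂ) = ((4 : ℕ) : ℂ) := by norm_num
  rw [this, Complex.cpow_natCast]

lemma hasSum_lam {x y : ℝ} (hy : 0 < y) :
    HasSum (fun p : ℤ × ℤ => lat x y p ^ 2 / ((Q x y p : ℝ) : ℂ) ^ 4) (lam x y) := by
  have h := hasSum_Z x hy (s := 4) (by norm_num)
  simp only [cpow_four] at h
  exact h.summable.hasSum

lemma lam_eq_Z {x y : ℝ} (hy : 0 < y) : lam x y = Z x hy 4 := by
  have h := hasSum_Z x hy (s := 4) (by norm_num)
  simp only [cpow_four] at h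
  exact h.tsum_eq

lemma summable_aux {x y : ℝ} (hy : 0 < y) {a : ℂ} {c : ℝ} (hc : 0 < c) :
    Summable fun p : ℤ × ℤ => ‖a * lat x y p ^ 2‖ / (c * Q x y p) ^ (4 : ℂ).re := by
  have h1 := (summable_Q_rpow (x := x) hy (r := (4 : ℂ).re - 1) (by norm_num)).mul_left
    (‖a‖ * (c ^ (4 : ℂ).re)⁻¹)
  refine h1.congr fun p => ?_
  rw [norm_mul, norm_pow, ← Q_eq]
  by_cases hz : p = 0
  · subst hz
    rw [Q_zero, Real.zero_rpow (by norm_num)]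
    simp
  · have h1 := del_le_Q (x := x) hy hz
    have h3 := del_pos (x := x) (y := y)
    have h2 : 0 < Q x y p := by linarith
    rw [Real.mul_rpow (by positivity) h2.le, show -((4 : ℂ).re - 1) = 1 - (4 : ℂ).re by ring,
      Real.rpow_sub h2, Real.rpow_one]
    field_simp

lemma hsC {ι : Type*} {f g : ι → ℂ} {a b : ℂ} (h : HasSum f a)
    (e : ∀ i, g i = f i) (e2 : b = a) : HasSum g b := by
  rw [e2]; rwa [show g = f from funext e]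

/-- termwise Mellin transform of a combination of two theta series -/
theorem mellin_two {x₁ y₁ x₂ y₂ : ℝ} (h₁ : 0 < y₁) (h₂ : 0 < y₂) {c₁ c₂ : ℝ} (hc₁ : 0 < c₁)
    (hc₂ : 0 < c₂) (a₁ a₂ : ℂ) {g g₁ g₂ : ℝ → ℂ}
    (H₁ : ∀ t : ℝ, 0 < t → HasSum (fun p : ℤ × ℤ =>
      lat x₁ y₁ p ^ 2 * ((rexp (-(c₁ * Q x₁ y₁ p) * t) : ℝ) : ℂ)) (g₁ t))
    (H₂ : ∀ t : ℝ, 0 < t → HasSum (fun p : ℤ × ℤ =>
      lat x₂ y₂ p ^ 2 * ((rexp (-(c₂ * Q x₂ y₂ p) * t) : ℝ) : ℂ)) (g₂ t))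
    (hg : ∀ t : ℝ, 0 < t → g t = a₁ * g₁ t + a₂ * g₂ t) :
    ∫ t in Ioi (0 : ℝ), g t * (t : ℂ) ^ 3
      = 6 * (a₁ / c₁ ^ 4 * lam x₁ y₁ + a₂ / c₂ ^ 4 * lam x₂ y₂) := by
  set a : (ℤ × ℤ) ⊕ (ℤ × ℤ) → ℂ :=
    Sum.elim (fun p => a₁ * lat x₁ y₁ p ^ 2) (fun p => a₂ * lat x₂ y₂ p ^ 2) with ha
  set q : (ℤ × ℤ) ⊕ (ℤ × ℤ) → ℝ :=
    Sum.elim (fun p => c₁ * Q x₁ y₁ p) (fun p => c₂ * Q x₂ y₂ p) with hq
  have hpos : ∀ i, a i = 0 ∨ 0 < q i := by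
    rintro (p | p)
    · by_cases hz : p = 0
      · left; subst hz; simp [ha, lat]
      · right
        have h1 := del_le_Q (x := x₁) h₁ hz
        have h2 := del_pos (x := x₁) (y := y₁)
        have h3 : 0 < Q x₁ y₁ p := by linarith
        simp only [hq, Sum.elim_inl]
        positivity
    · by_cases hz : p = 0
      · left; subst hz; simp [ha, lat]
      · right
        have h1 := del_le_Q (x := x₂) h₂ hz
        have h2 := del_pos (x := x₂) (y := y₂)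
        have h3 : 0 < Q x₂ y₂ p := by linarith
        simp only [hq, Sum.elim_inr]
        positivity
  have hF : ∀ t ∈ Ioi (0 : ℝ), HasSum (fun i => a i * ((rexp (-q i * t) : ℝ) : ℂ)) (g t) := by
    intro t ht
    rw [hg t ht]
    refine HasSum.sum ?_ ?_
    · refine hsC ((H₁ t ht).mul_left a₁) (fun p => ?_) rfl
      simp only [ha, hq, Function.comp, Sum.elim_inl]
      ring
    · refine hsC ((H₂ t ht).mul_left a₂) (fun p => ?_) rfl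
      simp only [ha, hq, Function.comp, Sum.elim_inr]
      ring
  have hsum : Summable fun i => ‖a i‖ / (q i) ^ (4 : ℂ).re := by
    have s1 := (summable_aux (x := x₁) h₁ (a := a₁) hc₁)
    have s2 := (summable_aux (x := x₂) h₂ (a := a₂) hc₂)
    refine (HasSum.sum (a := ∑' p : ℤ × ℤ, ‖a₁ * lat x₁ y₁ p ^ 2‖ / (c₁ * Q x₁ y₁ p) ^ (4 : ℂ).re)
      (b := ∑' p : ℤ × ℤ, ‖a₂ * lat x₂ y₂ p ^ 2‖ / (c₂ * Q x₂ y₂ p) ^ (4 : ℂ).re) ?_ ?_).summable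
    · exact s1.hasSum
    · exact s2.hasSum
  have main := hasSum_mellin (a := a) (p := q) (F := g) (s := 4) hpos (by norm_num) hF hsum
  have hG : Complex.Gamma 4 = 6 := by
    have : (4 : ℂ) = ((3 : ℕ) : ℂ) + 1 := by norm_num
    rw [this, Complex.Gamma_nat_eq_factorial]
    norm_num [Nat.factorial]
  have h2 : HasSum (fun i => Complex.Gamma 4 * a i / ((q i : ℝ) : ℂ) ^ (4 : ℂ))
      (6 * (a₁ / c₁ ^ 4 * lam x₁ y₁ + a₂ / c₂ ^ 4 * lam x₂ y₂)) := by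
    rw [mul_add]
    refine HasSum.sum ?_ ?_
    · refine hsC (((hasSum_lam (x := x₁) h₁).mul_left (a₁ / c₁ ^ 4)).mul_left 6) (fun p => ?_) rfl
      simp only [ha, hq, Function.comp, Sum.elim_inl, cpow_four, hG]
      push_cast
      rw [mul_pow]
      field_simp
    · refine hsC (((hasSum_lam (x := x₂) h₂).mul_left (a₂ / c₂ ^ 4)).mul_left 6) (fun p => ?_) rfl
      simp only [ha, hq, Function.comp, Sum.elim_inr, cpow_four, hG]
      push_cast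
      rw [mul_pow]
      field_simp
  have h3 := main.unique h2
  rw [← h3, mellin]
  refine setIntegral_congr_fun measurableSet_Ioi fun t ht => ?_
  have ht' : (0 : ℝ) < t := ht
  simp only [smul_eq_mul]
  rw [show (4 : ℂ) - 1 = ((3 : ℕ) : ℂ) by norm_num, Complex.cpow_natCast, mul_comm]

/-- the infinite product as a real number -/
lemma pinf_ofReal {r : ℝ} (h0 : 0 < r) (h1 : r < 1) :
    ((∏' n : ℕ, (1 - r ^ (n + 1)) : ℝ) : ℂ) = JacCube.pinf (r : ℂ) := by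
  have hm : Multipliable fun n : ℕ => 1 - r ^ (n + 1) := by
    have hs : Summable fun n : ℕ => ‖(-(r ^ (n + 1)) : ℝ)‖ := by
      have := (summable_geometric_of_lt_one h0.le h1).mul_left r
      refine this.congr fun n => ?_
      rw [norm_neg, Real.norm_of_nonneg (by positivity)]
      ring
    have := multipliable_one_add_of_summable hs
    simpa [sub_eq_add_neg] using this
  have h := hm.hasProd.map Complex.ofRealHom Complex.continuous_ofReal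
  rw [JacCube.pinf]
  have h2 := h.tprod_eq
  simp only [Complex.ofRealHom_eq_coe] at h2
  rw [← h2]
  congr 1
  funext n
  simp

lemma exp_nat_mul' (a : ℕ) (t : ℝ) : rexp (-(a * t)) = rexp (-t) ^ a := by
  rw [← Real.exp_nat_mul]; congr 1; ring

/-- `η(e ^ (-a t)) ^ 3` -/
lemma eta_cube {η : ℝ → ℝ}
    (hη : ∀ q : ℝ, η q = q ^ ((1 : ℝ) / 24) * ∏' n : ℕ, (1 - q ^ (n + 1)))
    (a : ℕ) (ha : a ≠ 0) {t : ℝ} (ht : 0 < t) :
    ((η (rexp (-(a * t))) ^ 3 : ℝ) : ℂ)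
      = ((rexp (-(a * t) / 8) : ℝ) : ℂ) * JacCube.pinf (((rexp (-t) : ℝ) : ℂ) ^ a) ^ 3 := by
  rw [hη, mul_pow, Complex.ofReal_mul]
  have hpos : 0 < rexp (-(a * t)) := Real.exp_pos _
  have h1 : rexp (-(a * t)) < 1 := by
    rw [Real.exp_lt_one_iff]
    have : (0 : ℝ) < a := by exact_mod_cast Nat.pos_of_ne_zero ha
    nlinarith [mul_pos this ht]
  congr 1
  · congr 1
    rw [← Real.exp_mul, ← Real.exp_nat_mul]
    congr 1
    push_cast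
    ring
  · rw [Complex.ofReal_pow, pinf_ofReal hpos h1, exp_nat_mul', Complex.ofReal_pow]

/-- The hypothesis (A) for the ring of integers. -/
def A3 : Prop := ∀ t : ℝ, 0 < t → HasSum (fun p : ℤ × ℤ =>
  lat (1 / 2) (√15 / 2) p ^ 2 * ((rexp (-(1 * Q (1 / 2) (√15 / 2) p) * t) : ℝ) : ℂ))
  (2 * ((rexp (-t) : ℝ) : ℂ) * JacCube.pinf (((rexp (-t) : ℝ) : ℂ) ^ 3) ^ 3
    * JacCube.pinf (((rexp (-t) : ℝ) : ℂ) ^ 5) ^ 3)

/-- The hypothesis (A) for the lattice `ℤ + ℤ τ₀`. -/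
def A1 : Prop := ∀ t : ℝ, 0 < t → HasSum (fun p : ℤ × ℤ =>
  lat (-1 / 2) (√15 / 6) p ^ 2 * ((rexp (-(3 * Q (-1 / 2) (√15 / 6) p) * t) : ℝ) : ℂ))
  (-(2 / 3) * ((rexp (-t) : ℝ) : ℂ) ^ 2 * JacCube.pinf (((rexp (-t) : ℝ) : ℂ)) ^ 3
    * JacCube.pinf (((rexp (-t) : ℝ) : ℂ) ^ 15) ^ 3)

/-- the function `(η(3z)η(5z))³ + (η(z)η(15z))³` at `z = i t / (2 π)` -/
noncomputable def g15 (t : ℝ) : ℂ :=
  ((rexp (-t) : ℝ) : ℂ) * JacCube.pinf (((rexp (-t) : ℝ) : ℂ) ^ 3) ^ 3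
    * JacCube.pinf (((rexp (-t) : ℝ) : ℂ) ^ 5) ^ 3
  + ((rexp (-t) : ℝ) : ℂ) ^ 2 * JacCube.pinf (((rexp (-t) : ℝ) : ℂ)) ^ 3
    * JacCube.pinf (((rexp (-t) : ℝ) : ℂ) ^ 15) ^ 3

/-- The Mellin transform at `4` of `g15`. -/
theorem mellin_g15 (hA3 : A3) (hA1 : A1) :
    ∫ t in Ioi (0 : ℝ), g15 t * (t : ℂ) ^ 3 = 3 * Lam3 - 1 / 9 * Lam1 := by
  have key := mellin_two y3_pos y1_pos (c₁ := 1) (c₂ := 3) one_pos (by norm_num) (1 / 2)
    (-(3 / 2)) (g := g15) hA3 hA1 (fun t _ => by rw [g15]; ring)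
  rw [key, Lam3, Lam1]
  push_cast
  ring

lemma g15_real {η : ℝ → ℝ}
    (hη : ∀ q : ℝ, η q = q ^ ((1 : ℝ) / 24) * ∏' n : ℕ, (1 - q ^ (n + 1)))
    {t : ℝ} (ht : 0 < t) :
    ((η (rexp (-3 * t)) ^ 3 * η (rexp (-5 * t)) ^ 3
        + η (rexp (-t)) ^ 3 * η (rexp (-15 * t)) ^ 3 : ℝ) : ℂ) = g15 t := by
  have e3 := eta_cube hη 3 (by norm_num) ht
  have e5 := eta_cube hη 5 (by norm_num) ht
  have e1 := eta_cube hη 1 (by norm_num) ht
  have e15 := eta_cube hη 15 (by norm_num) ht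
  have n3 : -3 * t = -(((3 : ℕ) : ℝ) * t) := by push_cast; ring
  have n5 : -5 * t = -(((5 : ℕ) : ℝ) * t) := by push_cast; ring
  have n1 : -t = -(((1 : ℕ) : ℝ) * t) := by push_cast; ring
  have n15 : -15 * t = -(((15 : ℕ) : ℝ) * t) := by push_cast; ring
  have m1 : rexp (-(((3 : ℕ) : ℝ) * t) / 8) * rexp (-(((5 : ℕ) : ℝ) * t) / 8) = rexp (-t) := by
    rw [← Real.exp_add]; congr 1; push_cast; ring
  have m2 : rexp (-(((1 : ℕ) : ℝ) * t) / 8) * rexp (-(((15 : ℕ) : ℝ) * t) / 8)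
      = rexp (-t) ^ 2 := by
    rw [← Real.exp_add, ← Real.exp_nat_mul]; congr 1; push_cast; ring
  have m1' : ((rexp (-(((3 : ℕ) : ℝ) * t) / 8) : ℝ) : ℂ)
      * ((rexp (-(((5 : ℕ) : ℝ) * t) / 8) : ℝ) : ℂ) = ((rexp (-t) : ℝ) : ℂ) := by
    rw [← Complex.ofReal_mul, m1]
  have m2' : ((rexp (-(((1 : ℕ) : ℝ) * t) / 8) : ℝ) : ℂ)
      * ((rexp (-(((15 : ℕ) : ℝ) * t) / 8) : ℝ) : ℂ) = ((rexp (-t) : ℝ) : ℂ) ^ 2 := by
    rw [← Complex.ofReal_mul, m2, Complex.ofReal_pow]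
  have e1' : ((η (rexp (-t)) ^ 3 : ℝ) : ℂ)
    = ((rexp (-(((1 : ℕ) : ℝ) * t) / 8) : ℝ) : ℂ)
      * JacCube.pinf (((rexp (-t) : ℝ) : ℂ)) ^ 3 := by
    have := e1
    rw [pow_one, ← n1] at this
    rw [this]
    congr 3
    push_cast; ring_nf
  rw [g15, n3, n5, n15, Complex.ofReal_add, Complex.ofReal_mul, Complex.ofReal_mul, e3, e5, e1',
    e15]
  linear_combination (JacCube.pinf (((rexp (-t) : ℝ) : ℂ) ^ 3) ^ 3
    * JacCube.pinf (((rexp (-t) : ℝ) : ℂ) ^ 5) ^ 3) * m1'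
    + (JacCube.pinf (((rexp (-t) : ℝ) : ℂ)) ^ 3
    * JacCube.pinf (((rexp (-t) : ℝ) : ℂ) ^ 15) ^ 3) * m2'

/-- The Mellin transform, real form (real eta function). -/
theorem mellin_eta15' (hA3 : A3) (hA1 : A1) {η : ℝ → ℝ}
    (hη : ∀ q : ℝ, η q = q ^ ((1 : ℝ) / 24) * ∏' n : ℕ, (1 - q ^ (n + 1))) :
    ((∫ t in Ioi (0 : ℝ), (η (rexp (-3 * t)) ^ 3 * η (rexp (-5 * t)) ^ 3
        + η (rexp (-t)) ^ 3 * η (rexp (-15 * t)) ^ 3) * t ^ 3 : ℝ) : ℂ)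
      = 3 * Lam3 - 1 / 9 * Lam1 := by
  rw [← mellin_g15 hA3 hA1, ← integral_complex_ofReal]
  refine setIntegral_congr_fun measurableSet_Ioi fun t ht => ?_
  show (((η (rexp (-3 * t)) ^ 3 * η (rexp (-5 * t)) ^ 3
        + η (rexp (-t)) ^ 3 * η (rexp (-15 * t)) ^ 3) * t ^ 3 : ℝ) : ℂ) = g15 t * (t : ℂ) ^ 3
  rw [← g15_real hη ht]
  push_cast
  rfl

/-- `η(a i y) ^ 3`, the complex eta function on the imaginary axis -/
lemma eta_cube_complex {η : ℂ → ℂ}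
    (hη : ∀ z : ℂ, η z = Complex.exp ((Real.pi : ℂ) * Complex.I * z / 12) *
      ∏' n : ℕ, (1 - Complex.exp (2 * (Real.pi : ℂ) * Complex.I * ((n : ℂ) + 1) * z)))
    (a : ℕ) (y : ℝ) :
    η (a * (Complex.I * y)) ^ 3
      = ((rexp (-(a * (2 * π * y)) / 8) : ℝ) : ℂ)
        * JacCube.pinf (((rexp (-(2 * π * y)) : ℝ) : ℂ) ^ a) ^ 3 := by
  rw [hη, mul_pow]
  congr 1
  · rw [← Complex.exp_nat_mul, Complex.ofReal_exp]
    congr 1
    push_cast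
    linear_combination (↑π * (a : ℂ) * y / 4) * Complex.I_sq
  · congr 1
    rw [JacCube.pinf]
    congr 1
    funext n
    rw [Complex.ofReal_exp, ← pow_mul, ← Complex.exp_nat_mul]
    congr 2
    push_cast
    linear_combination (2 * ↑π * ((n : ℂ) + 1) * (a : ℂ) * y) * Complex.I_sq

lemma g15_complex {η f : ℂ → ℂ}
    (hη : ∀ z : ℂ, η z = Complex.exp ((Real.pi : ℂ) * Complex.I * z / 12) *
      ∏' n : ℕ, (1 - Complex.exp (2 * (Real.pi : ℂ) * Complex.I * ((n : ℂ) + 1) * z)))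
    (hf : ∀ z : ℂ, f z = (η (3 * z) * η (5 * z)) ^ 3 + (η z * η (15 * z)) ^ 3) (y : ℝ) :
    f (Complex.I * (y : ℂ)) = g15 (2 * π * y) := by
  have e3 := eta_cube_complex hη 3 y
  have e5 := eta_cube_complex hη 5 y
  have e1 := eta_cube_complex hη 1 y
  have e15 := eta_cube_complex hη 15 y
  have m1' : ((rexp (-(((3 : ℕ) : ℝ) * (2 * π * y)) / 8) : ℝ) : ℂ)
      * ((rexp (-(((5 : ℕ) : ℝ) * (2 * π * y)) / 8) : ℝ) : ℂ)
      = ((rexp (-(2 * π * y)) : ℝ) : ℂ) := by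
    rw [← Complex.ofReal_mul, ← Real.exp_add]; congr 2; push_cast; ring
  have m2' : ((rexp (-(((1 : ℕ) : ℝ) * (2 * π * y)) / 8) : ℝ) : ℂ)
      * ((rexp (-(((15 : ℕ) : ℝ) * (2 * π * y)) / 8) : ℝ) : ℂ)
      = ((rexp (-(2 * π * y)) : ℝ) : ℂ) ^ 2 := by
    rw [← Complex.ofReal_mul, ← Real.exp_add, ← Complex.ofReal_pow, ← Real.exp_nat_mul]
    congr 2; push_cast; ring
  rw [pow_one] at e1
  rw [hf, g15, mul_pow, mul_pow]
  have h3 : (3 : ℂ) * (Complex.I * (y : ℂ)) = ((3 : ℕ) : ℂ) * (Complex.I * y) := by norm_num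
  have h5 : (5 : ℂ) * (Complex.I * (y : ℂ)) = ((5 : ℕ) : ℂ) * (Complex.I * y) := by norm_num
  have h15 : (15 : ℂ) * (Complex.I * (y : ℂ)) = ((15 : ℕ) : ℂ) * (Complex.I * y) := by norm_num
  have h1 : Complex.I * (y : ℂ) = ((1 : ℕ) : ℂ) * (Complex.I * y) := by norm_num
  rw [h3, h5, h15, e3, e5, e15]
  nth_rewrite 1 [h1]
  rw [e1]
  linear_combination (JacCube.pinf (((rexp (-(2 * π * y)) : ℝ) : ℂ) ^ 3) ^ 3
    * JacCube.pinf (((rexp (-(2 * π * y)) : ℝ) : ℂ) ^ 5) ^ 3) * m1'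
    + (JacCube.pinf (((rexp (-(2 * π * y)) : ℝ) : ℂ)) ^ 3
    * JacCube.pinf (((rexp (-(2 * π * y)) : ℝ) : ℂ) ^ 15) ^ 3) * m2'

/-- The Mellin transform, complex form (complex eta function). -/
theorem mellin_eta15_complex (hA3 : A3) (hA1 : A1) {η f : ℂ → ℂ}
    (hη : ∀ z : ℂ, η z = Complex.exp ((Real.pi : ℂ) * Complex.I * z / 12) *
      ∏' n : ℕ, (1 - Complex.exp (2 * (Real.pi : ℂ) * Complex.I * ((n : ℂ) + 1) * z)))
    (hf : ∀ z : ℂ, f z = (η (3 * z) * η (5 * z)) ^ 3 + (η z * η (15 * z)) ^ 3) :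
    (2 * (π : ℂ)) ^ 4 * ∫ y in Ioi (0 : ℝ), f (Complex.I * (y : ℂ)) * (y : ℂ) ^ 3
      = 3 * Lam3 - 1 / 9 * Lam1 := by
  have hp := pi_pos
  have h := integral_comp_mul_left_Ioi (fun t : ℝ => g15 t * (t : ℂ) ^ 3) 0
    (b := 2 * π) (by positivity)
  rw [mul_zero, mellin_g15 hA3 hA1] at h
  have e : ∫ y in Ioi (0 : ℝ), g15 (2 * π * y) * ((2 * π * y : ℝ) : ℂ) ^ 3
      = (2 * (π : ℂ)) ^ 3 * ∫ y in Ioi (0 : ℝ), f (Complex.I * (y : ℂ)) * (y : ℂ) ^ 3 := by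
    rw [← integral_const_mul]
    refine integral_congr_ae (Eventually.of_forall fun y => ?_)
    simp only
    rw [g15_complex hη hf]
    push_cast
    ring
  rw [e, Complex.real_smul] at h
  have hpc : (π : ℂ) ≠ 0 := by exact_mod_cast hp.ne'
  calc (2 * (π : ℂ)) ^ 4 * ∫ y in Ioi (0 : ℝ), f (Complex.I * (y : ℂ)) * (y : ℂ) ^ 3
      = (2 * π) * ((2 * (π : ℂ)) ^ 3
        * ∫ y in Ioi (0 : ℝ), f (Complex.I * (y : ℂ)) * (y : ℂ) ^ 3) := by ring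
    _ = 3 * Lam3 - 1 / 9 * Lam1 := by
        rw [h]
        push_cast
        field_simp

/-- the real eta integral from the lattice form of the Mahler measure. -/
theorem etaReal_of (hA3 : A3) (hA1 : A1) {m : ℝ}
    (hm : (m : ℂ) = (((√15 / (2 * π)) ^ 5 : ℝ) : ℂ) * (3 * Lam3 - 1 / 9 * Lam1)) {η : ℝ → ℝ}
    (hη : ∀ q : ℝ, η q = q ^ ((1 : ℝ) / 24) * ∏' n : ℕ, (1 - q ^ (n + 1))) :
    m = (15 / (4 * π ^ 2)) ^ ((5 : ℝ) / 2) *
      ∫ t in Ioi (0 : ℝ), (η (rexp (-3 * t)) ^ 3 * η (rexp (-5 * t)) ^ 3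
        + η (rexp (-t)) ^ 3 * η (rexp (-15 * t)) ^ 3) * t ^ 3 := by
  have hp := pi_pos
  have e : (15 / (4 * π ^ 2)) ^ ((5 : ℝ) / 2) = (√15 / (2 * π)) ^ 5 := by
    have h1 : 15 / (4 * π ^ 2) = (√15 / (2 * π)) ^ 2 := by
      rw [div_pow, Real.sq_sqrt (by norm_num)]; ring
    rw [h1, ← Real.rpow_natCast, ← Real.rpow_mul (by positivity), ← Real.rpow_natCast]
    norm_num
  have h := mellin_eta15' hA3 hA1 hη
  rw [← h, ← Complex.ofReal_mul] at hm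
  rw [e]
  exact Complex.ofReal_injective hm

/-- the complex eta integral from the lattice form of the Mahler measure. -/
theorem etaComplex_of (hA3 : A3) (hA1 : A1) {m : ℝ}
    (hm : (m : ℂ) = (((√15 / (2 * π)) ^ 5 : ℝ) : ℂ) * (3 * Lam3 - 1 / 9 * Lam1)) {η f : ℂ → ℂ}
    (hη : ∀ z : ℂ, η z = Complex.exp ((Real.pi : ℂ) * Complex.I * z / 12) *
      ∏' n : ℕ, (1 - Complex.exp (2 * (Real.pi : ℂ) * Complex.I * ((n : ℂ) + 1) * z)))
    (hf : ∀ z : ℂ, f z = (η (3 * z) * η (5 * z)) ^ 3 + (η z * η (15 * z)) ^ 3) :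
    (m : ℂ) = ((6 * (Real.sqrt 15 / (2 * Real.pi)) ^ 5 : ℝ) : ℂ) *
      (((2 * Real.pi) ^ 4 / Real.Gamma 4 : ℝ) : ℂ) *
        ∫ y in Set.Ioi (0 : ℝ), f (Complex.I * (y : ℂ)) * (y : ℂ) ^ 3 := by
  have hG : Real.Gamma 4 = 6 := by
    have : (4 : ℝ) = ((3 : ℕ) : ℝ) + 1 := by norm_num
    rw [this, Real.Gamma_nat_eq_factorial]
    norm_num [Nat.factorial]
  rw [hm, ← mellin_eta15_complex hA3 hA1 hη hf, hG]
  push_cast
  ring

end RVL
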